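import Pool.Agent.Helper162.Arc.Quot

set_option autoImplicit false
set_option linter.unusedSectionVars false

open Set Filter Topology

namespace Pool.Agent.H452.ALC

open Pool.Agent.Helper162.Arc

section den
variable {X Y : Type} [TopologicalSpace X] [CompactSpace X] [T2Space X] [TopologicalSpace Y]
  [CompactSpace Y] [T2Space Y]
variable {f : X → Y} {u : X → ℝ} {v : Y → ℝ}

/-- the component of `x` in `{s ≤ u}` -/
def E (u : X → ℝ) (x : X) (s : ℝ) : Set X := connectedComponentIn {z | s ≤ u z} x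

lemma E_sub (x : X) (s : ℝ) {z : X} (hz : z ∈ E u x s) : s ≤ u z :=
  connectedComponentIn_subset {z | s ≤ u z} x hz

lemma E_eq {x z : X} {s : ℝ} (hz : z ∈ E u x s) : E u x s = E u z s :=
  connectedComponentIn_eq hz

lemma mem_E {x : X} {s : ℝ} (h : s ≤ u x) : x ∈ E u x s :=
  mem_connectedComponentIn h

lemma E_anti {x : X} {s t : ℝ} (h : s ≤ t) : E u x t ⊆ E u x s :=
  connectedComponentIn_mono x (fun _ hz => le_trans h hz)

/-- every level below is reached -/
lemma level [PreconnectedSpace X] (hu : Continuous u) {x z0 : X} {s : ℝ} (h0 : u z0 ≤ s)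
    (hx : s ≤ u x) : ∃ z ∈ E u x s, u z = s := by
  by_contra hcon
  push Not at hcon
  have hB : IsClosed {z | u z = s} := isClosed_eq hu continuous_const
  have hZ : IsClosed {z | s ≤ u z} := isClosed_le continuous_const hu
  have hdis : Disjoint (connectedComponentIn {z | s ≤ u z} x) {z | u z = s} := by
    rw [Set.disjoint_left]
    intro z hz hz'
    exact hcon z hz hz'
  obtain ⟨D, hD, hD2, hDZ, hxD, hDB⟩ := sep_pset hZ hB (a := x) hx hdis
  have hQ : IsClosed (({z | s ≤ u z} \ D) ∪ {z | u z ≤ s}) :=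
    hD2.union (isClosed_le hu continuous_const)
  have hcov : (univ : Set X) ⊆ D ∪ (({z | s ≤ u z} \ D) ∪ {z | u z ≤ s}) := by
    intro z _
    by_cases hz : z ∈ D
    · exact Or.inl hz
    · rcases le_total s (u z) with h | h
      · exact Or.inr (Or.inl ⟨h, hz⟩)
      · exact Or.inr (Or.inr h)
  have hdd : Disjoint D (({z | s ≤ u z} \ D) ∪ {z | u z ≤ s}) := by
    rw [Set.disjoint_left]
    rintro z hz (h | h)
    · exact h.2 hz
    · exact Set.disjoint_left.1 hDB hz (le_antisymm h (hDZ hz))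
  rcases pc_cases isPreconnected_univ hD hQ hcov hdd with h | h
  · exact Set.disjoint_left.1 hdd (h (mem_univ z0)) (Or.inr h0)
  · exact Set.disjoint_left.1 hdd hxD (h (mem_univ x))

lemma same (hrel : ∀ x y, f x = f y ↔ TRel u x y) {x z z' : X} {s : ℝ} (hz : z ∈ E u x s)
    (hz' : z' ∈ E u x s) (h : u z = s) (h' : u z' = s) : f z = f z' := by
  refine (hrel z z').2 ⟨h.trans h'.symm, ?_⟩
  have h1 : E u x s = E u z s := E_eq hz
  rw [h1] at hz'
  rw [h]
  exact hz'

/-- The path from `f x` down to the root. -/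
lemma exists_path [PreconnectedSpace X] (hf : Continuous f) (hu : Continuous u)
    (hv : Continuous v) (hvf : ∀ x, v (f x) = u x) (hrel : ∀ x y, f x = f y ↔ TRel u x y)
    {m : ℝ} {z0 : X} (hz0 : u z0 = m) (x : X) (hmx : m ≤ u x) :
    ∃ p : ℝ → Y, Continuous p ∧ ∀ s ∈ Icc m (u x), ∀ z ∈ E u x s, u z = s → p s = f z := by
  set C : Set X := {z | u z ≤ u x ∧ m ≤ u z ∧ z ∈ E u x (u z)} with hC
  have hCcl : IsClosed C := by
    have h1 : IsClosed {z | u z ≤ u x} := isClosed_le hu continuous_const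
    have h2 : IsClosed {z | m ≤ u z} := isClosed_le continuous_const hu
    have h3 : IsClosed {z | z ∈ E u x (u z)} := by
      rw [← isOpen_compl_iff, isOpen_iff_mem_nhds]
      intro z hz
      obtain ⟨ε, hε, U, hU, V, hV, h⟩ := stab hu (t := u z) (x := x) (y := z) hz
      have a1 : {z' | |u z' - u z| < ε} ∈ 𝓝 z := by
        apply (isOpen_lt (by fun_prop) continuous_const).mem_nhds
        show |u z - u z| < ε
        simpa using hε
      filter_upwards [a1, hV] with z' h1 h2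
      exact h u (u z') (fun z => by simpa using hε) h1 x (mem_of_mem_nhds hU) z' h2
    exact h1.inter (h2.inter h3)
  set Γ : Set Y := f '' C with hΓ
  have hΓc : IsCompact Γ := hCcl.isCompact.image hf
  haveI : CompactSpace Γ := isCompact_iff_compactSpace.1 hΓc
  have hΓv : ∀ y ∈ Γ, v y ∈ Icc m (u x) := by
    rintro _ ⟨z, ⟨h1, h2, -⟩, rfl⟩
    rw [hvf]; exact ⟨h2, h1⟩
  let e : Γ → Icc m (u x) := fun y => ⟨v y.1, hΓv y.1 y.2⟩
  have hec : Continuous e := by
    apply Continuous.subtype_mk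
    exact hv.comp continuous_subtype_val
  have hinj : Function.Injective e := by
    rintro ⟨_, z, ⟨h1, h2, h3⟩, rfl⟩ ⟨_, z', ⟨h1', h2', h3'⟩, rfl⟩ h
    have h4 : v (f z) = v (f z') := congrArg Subtype.val h
    rw [hvf, hvf] at h4
    apply Subtype.ext
    show f z = f z'
    rw [← h4] at h3'
    exact same hrel h3 h3' rfl h4.symm
  have hsur : Function.Surjective e := by
    rintro ⟨s, hs1, hs2⟩
    obtain ⟨z, hz, hzs⟩ := level hu (x := x) (z0 := z0) (s := s) (by rw [hz0]; exact hs1) hs2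
    refine ⟨⟨f z, z, ⟨by rw [hzs]; exact hs2, by rw [hzs]; exact hs1, by rw [hzs]; exact hz⟩, rfl⟩,
      ?_⟩
    apply Subtype.ext
    show v (f z) = s
    rw [hvf, hzs]
  let e' : Γ ≃ₜ Icc m (u x) :=
    Continuous.homeoOfEquivCompactToT2 (f := Equiv.ofBijective e ⟨hinj, hsur⟩) hec
  refine ⟨fun s => (e'.symm (projIcc m (u x) hmx s)).1,
    continuous_subtype_val.comp (e'.symm.continuous.comp continuous_projIcc), ?_⟩
  intro s hs z hz hzs
  have hzC : z ∈ C := ⟨by rw [hzs]; exact hs.2, by rw [hzs]; exact hs.1, by rw [hzs]; exact hz⟩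
  have h1 : e' ⟨f z, z, hzC, rfl⟩ = projIcc m (u x) hmx s := by
    apply Subtype.ext
    rw [projIcc_of_mem hmx hs]
    show v (f z) = s
    rw [hvf, hzs]
  show (e'.symm (projIcc m (u x) hmx s)).1 = f z
  rw [← h1, e'.symm_apply_apply]

/-- The tree quotient is path connected. -/
theorem pathConn [ConnectedSpace X] (hf : Continuous f) (hfs : Function.Surjective f)
    (hu : Continuous u) (hv : Continuous v) (hvf : ∀ x, v (f x) = u x)
    (hrel : ∀ x y, f x = f y ↔ TRel u x y) : PathConnectedSpace Y := by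
  obtain ⟨z0, -, hz0⟩ := isCompact_univ.exists_isMinOn (univ_nonempty (α := X)) hu.continuousOn
  have hmin : ∀ x, u z0 ≤ u x := fun x => hz0 (mem_univ x)
  have key : ∀ y : Y, Joined y (f z0) := by
    intro y
    obtain ⟨x, rfl⟩ := hfs y
    obtain ⟨p, hp, hps⟩ := exists_path hf hu hv hvf hrel (m := u z0) (z0 := z0) rfl x (hmin x)
    have hpc : IsPathConnected (p '' Icc (u z0) (u x)) :=
      ((convex_Icc (u z0) (u x)).isPathConnected ⟨u x, hmin x, le_rfl⟩).image hp
    have h1 : p (u x) = f x := hps _ ⟨hmin x, le_rfl⟩ x (mem_E le_rfl) rfl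
    have hE : z0 ∈ E u x (u z0) := by
      have h2 : {z | u z0 ≤ u z} = (univ : Set X) := by
        ext z; simp [hmin z]
      show z0 ∈ connectedComponentIn {z | u z0 ≤ u z} x
      rw [h2, connectedComponentIn_univ, PreconnectedSpace.connectedComponent_eq_univ]
      trivial
    have h2 : p (u z0) = f z0 := hps _ ⟨le_rfl, hmin x⟩ z0 hE rfl
    have h3 := hpc.joinedIn (f x) ⟨u x, ⟨hmin x, le_rfl⟩, h1⟩ (f z0)
      ⟨u z0, ⟨le_rfl, hmin x⟩, h2⟩
    exact h3.joined
  exact { nonempty := ⟨f z0⟩, joined := fun y y' => (key y).trans (key y').symm }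

/-- A connected closed set missing the level point below `f x` lies above it. -/
lemma cut (hf : Continuous f) (hfs : Function.Surjective f) (hu : Continuous u)
    (hv : Continuous v) (hvf : ∀ x, v (f x) = u x) (hrel : ∀ x y, f x = f y ↔ TRel u x y)
    {K : Set Y} (hK : IsClosed K) (hKc : IsPreconnected K) {x : X} (hx : f x ∈ K) {s : ℝ}
    (hs : s ≤ u x) (hno : ∀ z ∈ E u x s, u z = s → f z ∉ K) {x' : X} (hx' : f x' ∈ K) :
    x' ∈ E u x s := by
  by_contra hcon
  have hclosed : IsClosedMap f := hf.isClosedMap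
  have hZ : IsClosed {z | s ≤ u z} := isClosed_le continuous_const hu
  have hB : IsClosed ((f ⁻¹' K ∩ {z | u z = s}) ∪ {x'}) :=
    ((hK.preimage hf).inter (isClosed_eq hu continuous_const)).union isClosed_singleton
  have hdis : Disjoint (connectedComponentIn {z | s ≤ u z} x)
      ((f ⁻¹' K ∩ {z | u z = s}) ∪ {x'}) := by
    rw [Set.disjoint_left]
    rintro z hz (h | h)
    · exact hno z hz h.2 h.1
    · apply hcon
      rw [mem_singleton_iff] at h
      rw [← h]; exact hz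
  obtain ⟨D, hD, hD2, hDZ, hxD, hDB⟩ := sep_pset hZ hB (a := x) hs hdis
  have hdp := disjoint_pieces (fun a b h => (hrel a b).1 h) hD hD2 hDZ
  have hQ : IsClosed (K ∩ ((f '' ({z | s ≤ u z} \ D)) ∪ {y | v y ≤ s})) :=
    hK.inter ((hclosed _ hD2).union (isClosed_le hv continuous_const))
  have hcov : K ⊆ (K ∩ f '' D) ∪ (K ∩ ((f '' ({z | s ≤ u z} \ D)) ∪ {y | v y ≤ s})) := by
    intro w hw
    obtain ⟨z, rfl⟩ := hfs w
    rcases le_or_gt s (u z) with h | h
    · by_cases hzD : z ∈ D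
      · exact Or.inl ⟨hw, z, hzD, rfl⟩
      · exact Or.inr ⟨hw, Or.inl ⟨z, ⟨h, hzD⟩, rfl⟩⟩
    · refine Or.inr ⟨hw, Or.inr ?_⟩
      show v (f z) ≤ s
      rw [hvf]; exact h.le
  have hdd : Disjoint (K ∩ f '' D) (K ∩ ((f '' ({z | s ≤ u z} \ D)) ∪ {y | v y ≤ s})) := by
    rw [Set.disjoint_left]
    rintro _ ⟨hw, d, hd, rfl⟩ ⟨-, (h | h)⟩
    · exact Set.disjoint_left.1 hdp ⟨d, hd, rfl⟩ h
    · have h1 : v (f d) ≤ s := h
      rw [hvf] at h1
      exact Set.disjoint_left.1 hDB hd (Or.inl ⟨hw, le_antisymm h1 (hDZ hd)⟩)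
  rcases pc_cases hKc (hK.inter (hclosed _ hD)) hQ hcov hdd with h | h
  · have hx'D : x' ∉ D := fun h' => Set.disjoint_left.1 hDB h' (Or.inr rfl)
    have hq : f x' ∈ K ∩ ((f '' ({z | s ≤ u z} \ D)) ∪ {y | v y ≤ s}) := by
      rcases le_or_gt s (u x') with h1 | h1
      · exact ⟨hx', Or.inl ⟨x', ⟨h1, hx'D⟩, rfl⟩⟩
      · refine ⟨hx', Or.inr ?_⟩
        show v (f x') ≤ s
        rw [hvf]; exact h1.le
    exact Set.disjoint_left.1 hdd (h hx') hq
  · exact Set.disjoint_left.1 hdd ⟨hx, x, hxD, rfl⟩ (h hx)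

/-- The tree quotient is hereditarily unicoherent. -/
theorem hunic [ConnectedSpace X] (hf : Continuous f) (hfs : Function.Surjective f)
    (hu : Continuous u) (hv : Continuous v) (hvf : ∀ x, v (f x) = u x)
    (hrel : ∀ x y, f x = f y ↔ TRel u x y) {K L : Set Y} (hK : IsClosed K)
    (hKc : IsPreconnected K) (hL : IsClosed L) (hLc : IsPreconnected L) :
    IsPreconnected (K ∩ L) := by
  obtain ⟨z0, -, hz0⟩ := isCompact_univ.exists_isMinOn (univ_nonempty (α := X)) hu.continuousOn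
  have hmin : ∀ x, u z0 ≤ u x := fun x => hz0 (mem_univ x)
  have hroot : ∀ x z : X, z ∈ E u x (u z0) := by
    intro x z
    have h2 : {z | u z0 ≤ u z} = (univ : Set X) := by
      ext z; simp [hmin z]
    show z ∈ connectedComponentIn {z | u z0 ≤ u z} x
    rw [h2, connectedComponentIn_univ, PreconnectedSpace.connectedComponent_eq_univ]
    trivial
  have hWcl : IsClosed (K ∩ L) := hK.inter hL
  -- the segment from `f x` down to the last common level stays in `K ∩ L`
  have seg : ∀ x x' : X, f x ∈ K ∩ L → f x' ∈ K ∩ L → ∀ p : ℝ → Y, Continuous p →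
      (∀ s ∈ Icc (u z0) (u x), ∀ z ∈ E u x s, u z = s → p s = f z) → ∀ t : ℝ, u z0 ≤ t →
      t ≤ u x → (∀ s, t < s → s ≤ u x → x' ∉ E u x s) → p '' Icc t (u x) ⊆ K ∩ L := by
    intro x x' hx hx' p hp hps t ht0 htx hno
    have hup : p (u x) = f x := hps _ ⟨hmin x, le_rfl⟩ x (mem_E le_rfl) rfl
    have hIoc : ∀ s ∈ Ioc t (u x), p s ∈ K ∩ L := by
      intro s hs
      have hs' : s ∈ Icc (u z0) (u x) := ⟨ht0.trans hs.1.le, hs.2⟩
      obtain ⟨z, hz, hzs⟩ := level hu (x := x) (z0 := z0) (s := s) hs'.1 hs'.2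
      rw [hps s hs' z hz hzs]
      have hboth : ∀ M : Set Y, IsClosed M → IsPreconnected M → f x ∈ M → f x' ∈ M →
          f z ∈ M := by
        intro M hM hMc hxM hx'M
        by_contra hcon
        refine hno s hs.1 hs.2 (cut hf hfs hu hv hvf hrel hM hMc hxM hs.2 ?_ hx'M)
        intro z' hz' hz's h
        apply hcon
        rw [same hrel hz hz' hzs hz's]
        exact h
      exact ⟨hboth K hK hKc hx.1 hx'.1, hboth L hL hLc hx.2 hx'.2⟩
    rintro _ ⟨s, hs, rfl⟩
    rcases eq_or_lt_of_le htx with h | h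
    · have : s = u x := le_antisymm hs.2 (h ▸ hs.1)
      rw [this, hup]; exact hx
    · have h1 : IsClosed (p ⁻¹' (K ∩ L)) := hWcl.preimage hp
      have h2 : closure (Ioc t (u x)) ⊆ p ⁻¹' (K ∩ L) :=
        closure_minimal (fun s hs => hIoc s hs) h1
      rw [closure_Ioc h.ne] at h2
      exact h2 hs
  apply pc_of hWcl
  rintro P Q hP hQ hPQ hd ⟨y, hy⟩ ⟨y', hy'⟩
  obtain ⟨x, rfl⟩ := hfs y
  obtain ⟨x', rfl⟩ := hfs y'
  have hxW : f x ∈ K ∩ L := by rw [← hPQ]; exact Or.inl hy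
  have hxW' : f x' ∈ K ∩ L := by rw [← hPQ]; exact Or.inr hy'
  -- the last common level
  set S : Set ℝ := {s | s ∈ Icc (u z0) (min (u x) (u x')) ∧ x' ∈ E u x s} with hS
  have hScl : IsClosed S := by
    have h1 : IsClosed {s : ℝ | x' ∈ E u x s} := by
      rw [← isOpen_compl_iff, isOpen_iff_mem_nhds]
      intro s hs
      obtain ⟨ε, hε, U, hU, V, hV, h⟩ := stab hu (t := s) (x := x) (y := x') hs
      have a1 : {s' : ℝ | |s' - s| < ε} ∈ 𝓝 s := by
        apply (isOpen_lt (by fun_prop) continuous_const).mem_nhds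
        show |s - s| < ε
        simpa using hε
      filter_upwards [a1] with s' h1
      exact h u s' (fun z => by simpa using hε) h1 x (mem_of_mem_nhds hU) x' (mem_of_mem_nhds hV)
    exact isClosed_Icc.inter h1
  have hSne : S.Nonempty := ⟨u z0, ⟨le_rfl, le_min (hmin x) (hmin x')⟩, hroot x x'⟩
  have hSb : BddAbove S := ⟨min (u x) (u x'), fun s hs => hs.1.2⟩
  set t := sSup S with ht
  have htS : t ∈ S := hScl.csSup_mem hSne hSb
  have htx : t ≤ u x := htS.1.2.trans (min_le_left _ _)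
  have htx' : t ≤ u x' := htS.1.2.trans (min_le_right _ _)
  have hEE : E u x t = E u x' t := E_eq htS.2
  obtain ⟨p, hp, hps⟩ := exists_path hf hu hv hvf hrel (m := u z0) (z0 := z0) rfl x (hmin x)
  obtain ⟨p', hp', hps'⟩ := exists_path hf hu hv hvf hrel (m := u z0) (z0 := z0) rfl x' (hmin x')
  have hseg := seg x x' hxW hxW' p hp hps t htS.1.1 htx (by
    intro s hts hsx h
    have hsx' : s ≤ u x' := E_sub x s h
    have : s ∈ S := ⟨⟨htS.1.1.trans hts.le, le_min hsx hsx'⟩, h⟩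
    exact absurd (le_csSup hSb this) (not_le.2 hts))
  have hseg' := seg x' x hxW' hxW p' hp' hps' t htS.1.1 htx' (by
    intro s hts hsx h
    have hsx' : s ≤ u x := E_sub x' s h
    have h2 : x' ∈ E u x s := by
      rw [← E_eq h]; exact mem_E hsx
    have : s ∈ S := ⟨⟨htS.1.1.trans hts.le, le_min hsx' hsx⟩, h2⟩
    exact absurd (le_csSup hSb this) (not_le.2 hts))
  obtain ⟨z, hz, hzt⟩ := level hu (x := x) (z0 := z0) (s := t) htS.1.1 htx
  have hpt : p t = f z := hps t ⟨htS.1.1, htx⟩ z hz hzt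
  have hpt' : p' t = f z := hps' t ⟨htS.1.1, htx'⟩ z (by rw [← hEE]; exact hz) hzt
  have hc : IsPreconnected (p '' Icc t (u x)) := isPreconnected_Icc.image p hp.continuousOn
  have hc' : IsPreconnected (p' '' Icc t (u x')) := isPreconnected_Icc.image p' hp'.continuousOn
  have hT : IsPreconnected (p '' Icc t (u x) ∪ p' '' Icc t (u x')) :=
    hc.union (f z) ⟨t, ⟨le_rfl, htx⟩, hpt⟩ ⟨t, ⟨le_rfl, htx'⟩, hpt'⟩ hc'
  have hxT : f x ∈ p '' Icc t (u x) ∪ p' '' Icc t (u x') :=
    Or.inl ⟨u x, ⟨htx, le_rfl⟩, hps _ ⟨hmin x, le_rfl⟩ x (mem_E le_rfl) rfl⟩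
  have hxT' : f x' ∈ p '' Icc t (u x) ∪ p' '' Icc t (u x') :=
    Or.inr ⟨u x', ⟨htx', le_rfl⟩, hps' _ ⟨hmin x', le_rfl⟩ x' (mem_E le_rfl) rfl⟩
  have hTW : p '' Icc t (u x) ∪ p' '' Icc t (u x') ⊆ P ∪ Q := by
    rw [hPQ]; exact union_subset hseg hseg'
  rcases pc_cases hT hP hQ hTW hd with h | h
  · exact Set.disjoint_left.1 hd (h hxT') hy'
  · exact Set.disjoint_left.1 hd hy (h hxT)

end den

end Pool.Agent.H452.ALC
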