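import Pool.Agent.Helper162.Arc.PA

set_option autoImplicit false
set_option linter.unusedSectionVars false

open Set Filter Topology

namespace Pool.Agent.H452.ALC

open Pool.Agent.Helper162.Arc

section gen
variable {X : Type} [MetricSpace X] [CompactSpace X]

/-- maps to the line with arbitrarily small fibres -/
def ArcLike (X : Type) [MetricSpace X] : Prop :=
  ∀ ε : ℝ, 0 < ε → ∃ p : C(X, ℝ), ∀ x y, p x = p y → dist x y < ε

lemma approx (u : C(X, ℝ)) {ε : ℝ} (hε : 0 < ε) : ∃ δ > 0, ∀ π : C(X, ℝ),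
    (∀ x y, π x = π y → dist x y < δ) → ∃ w : C(ℝ, ℝ), ∀ x, |w (π x) - u x| < ε := by
  obtain ⟨δ, hδ, h⟩ := Metric.uniformContinuous_iff.1
    (CompactSpace.uniformContinuous_of_continuous u.continuous) ε hε
  refine ⟨δ, hδ, fun π hπ => ?_⟩
  obtain ⟨w, hw⟩ := exists_continuous_forall_mem_convex_of_local_const (X := ℝ) (E := ℝ)
    (t := fun s => {r : ℝ | ∀ x, π x = s → |r - u x| < ε}) (by
      intro s a ha b hb p q hp hq hpq x hx
      have h1 := abs_lt.1 (ha x hx)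
      have h2 := abs_lt.1 (hb x hx)
      have h3 := (convex_Ioo (-ε) ε) (x := a - u x) ⟨h1.1, h1.2⟩ (y := b - u x) ⟨h2.1, h2.2⟩
        hp hq hpq
      have e : p • a + q • b - u x = p • (a - u x) + q • (b - u x) := by
        have hq' : q = 1 - p := by linarith
        subst hq'
        simp only [smul_eq_mul]; ring
      rw [e, abs_lt]
      exact ⟨h3.1, h3.2⟩) (by
      intro s
      by_cases hs : ∃ x0, π x0 = s
      · obtain ⟨x0, hx0⟩ := hs
        refine ⟨u x0, ?_⟩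
        have hcl : IsClosed (π '' {x | ε ≤ |u x0 - u x|}) :=
          ((isClosed_le continuous_const (by fun_prop)).isCompact.image π.continuous).isClosed
        have hns : s ∉ π '' {x | ε ≤ |u x0 - u x|} := by
          rintro ⟨x, hx, hxs⟩
          have := h (hπ x0 x (hx0.trans hxs.symm))
          rw [Real.dist_eq] at this
          exact absurd this (not_lt.2 hx)
        filter_upwards [hcl.isOpen_compl.mem_nhds hns] with s' hs' x hx
        by_contra hcon
        exact hs' ⟨x, not_lt.1 hcon, hx⟩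
      · refine ⟨0, ?_⟩
        have hcl : IsClosed (Set.range π) := (isCompact_range π.continuous).isClosed
        have hns : s ∉ Set.range π := fun ⟨x, hx⟩ => hs ⟨x, hx⟩
        filter_upwards [hcl.isOpen_compl.mem_nhds hns] with s' hs' x hx
        exact absurd ⟨x, hx⟩ hs')
  exact ⟨w, fun x => hw (π x) x rfl⟩

/-- bad quadruples -/
def SB (m : ℕ) : Set (C(X, ℝ) × (Fin 4 → X)) :=
  {p | (∀ i j, i ≠ j → 1 / ((m : ℝ) + 1) ≤ dist (p.2 i) (p.2 j)) ∧
    ∀ i, p.1 (p.2 0) = p.1 (p.2 i) ∧ p.2 i ∈ connectedComponentIn {z | p.1 (p.2 0) ≤ p.1 z} (p.2 0)}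

lemma isClosed_SB (m : ℕ) : IsClosed (SB m : Set (C(X, ℝ) × (Fin 4 → X))) := by
  have hev : ∀ i : Fin 4, Continuous fun p : C(X, ℝ) × (Fin 4 → X) => p.1 (p.2 i) := by
    intro i
    fun_prop
  have h1 : IsClosed {p : C(X, ℝ) × (Fin 4 → X) | ∀ i j, i ≠ j →
      1 / ((m : ℝ) + 1) ≤ dist (p.2 i) (p.2 j)} := by
    simp only [Set.ofPred_forall]
    refine isClosed_iInter fun i => isClosed_iInter fun j => isClosed_iInter fun _ => ?_
    exact isClosed_le continuous_const (by fun_prop)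
  have h2 : IsClosed {p : C(X, ℝ) × (Fin 4 → X) | ∀ i, p.1 (p.2 0) = p.1 (p.2 i)} := by
    simp only [Set.ofPred_forall]
    exact isClosed_iInter fun i => isClosed_eq (hev 0) (hev i)
  have h3 : IsClosed {p : C(X, ℝ) × (Fin 4 → X) | ∀ i,
      p.2 i ∈ connectedComponentIn {z | p.1 (p.2 0) ≤ p.1 z} (p.2 0)} := by
    simp only [Set.ofPred_forall]
    refine isClosed_iInter fun i => ?_
    rw [← isOpen_compl_iff, isOpen_iff_mem_nhds]
    rintro ⟨u, x⟩ hux
    obtain ⟨ε, hε, U, hU, V, hV, h⟩ := stab u.continuous (t := u (x 0)) (x := x 0) (y := x i) hux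
    have a1 : {p : C(X, ℝ) × (Fin 4 → X) | |p.1 (p.2 0) - u (x 0)| < ε} ∈ 𝓝 (u, x) := by
      apply (isOpen_lt (by fun_prop) continuous_const).mem_nhds
      show |u (x 0) - u (x 0)| < ε
      simpa using hε
    have a2 : {p : C(X, ℝ) × (Fin 4 → X) | dist p.1 u < ε} ∈ 𝓝 (u, x) := by
      apply (isOpen_lt (by fun_prop) continuous_const).mem_nhds
      show dist u u < ε
      simpa using hε
    have a3 : {p : C(X, ℝ) × (Fin 4 → X) | p.2 0 ∈ U} ∈ 𝓝 (u, x) := by
      have : Tendsto (fun p : C(X, ℝ) × (Fin 4 → X) => p.2 0) (𝓝 (u, x)) (𝓝 (x 0)) :=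
        Continuous.tendsto (by fun_prop) _
      exact this hU
    have a4 : {p : C(X, ℝ) × (Fin 4 → X) | p.2 i ∈ V} ∈ 𝓝 (u, x) := by
      have : Tendsto (fun p : C(X, ℝ) × (Fin 4 → X) => p.2 i) (𝓝 (u, x)) (𝓝 (x i)) :=
        Continuous.tendsto (by fun_prop) _
      exact this hV
    filter_upwards [a1, a2, a3, a4] with p b1 b2 b3 b4
    refine h p.1 (p.1 (p.2 0)) (fun z => ?_) b1 (p.2 0) b3 (p.2 i) b4
    rw [← Real.dist_eq]
    exact lt_of_le_of_lt (ContinuousMap.dist_apply_le_dist z) b2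
  have : (SB m : Set (C(X, ℝ) × (Fin 4 → X))) =
      {p | ∀ i j, i ≠ j → 1 / ((m : ℝ) + 1) ≤ dist (p.2 i) (p.2 j)} ∩
    ({p | ∀ i, p.1 (p.2 0) = p.1 (p.2 i)} ∩
      {p | ∀ i, p.2 i ∈ connectedComponentIn {z | p.1 (p.2 0) ≤ p.1 z} (p.2 0)}) := by
    ext p
    simp only [SB, Set.mem_ofPred_eq, Set.mem_inter_iff, forall_and]
  rw [this]
  exact h1.inter (h2.inter h3)

/-- bad functions -/
def BB (m : ℕ) : Set C(X, ℝ) := Prod.fst '' SB m

lemma isClosed_BB (m : ℕ) : IsClosed (BB m : Set C(X, ℝ)) :=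
  isClosedMap_fst_of_compactSpace _ (isClosed_SB m)

lemma dense_good (hX : ArcLike X) (m : ℕ) : Dense (BB m : Set C(X, ℝ))ᶜ := by
  rw [Metric.dense_iff]
  intro u ε hε
  obtain ⟨δ, hδ, hap⟩ := approx u (ε := ε / 4) (by linarith)
  obtain ⟨π₀, hπ₀⟩ := hX (min δ (1 / ((m : ℝ) + 1))) (lt_min hδ (by positivity))
  obtain ⟨w, hw⟩ := hap π₀ (fun x y h => (hπ₀ x y h).trans_le (min_le_left _ _))
  have hM : ∀ x, |π₀ x| ≤ ‖π₀‖ + 1 := fun x => by
    have := ContinuousMap.norm_coe_le_norm π₀ x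
    rw [Real.norm_eq_abs] at this
    linarith
  have hMp : 0 < ‖π₀‖ + 1 := by positivity
  obtain ⟨l, hl0, hl1, hl⟩ := exists_lam w (ε := ε / 4 / (‖π₀‖ + 1)) (by positivity)
  set v : C(X, ℝ) := w.comp π₀ + l • π₀ with hv
  have hvx : ∀ x, v x = w (π₀ x) + l * π₀ x := fun x => by
    simp [hv]
  refine ⟨v, ?_, ?_⟩
  · rw [Metric.mem_ball, ContinuousMap.dist_lt_iff hε]
    intro x
    rw [Real.dist_eq]
    have h1 : |w (π₀ x) - u x| < ε / 4 := hw x
    have h2 : |l * π₀ x| ≤ ε / 4 := by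
      rw [abs_mul, abs_of_pos hl0]
      calc l * |π₀ x| ≤ (ε / 4 / (‖π₀‖ + 1)) * (‖π₀‖ + 1) :=
            mul_le_mul hl1.le (hM x) (abs_nonneg _) (by positivity)
        _ = ε / 4 := by field_simp
    have h3 : v x - u x = (w (π₀ x) - u x) + l * π₀ x := by
      rw [hvx]; ring
    rw [h3]
    calc _ ≤ |w (π₀ x) - u x| + |l * π₀ x| := abs_add_le _ _
      _ < ε := by linarith
  · rintro ⟨⟨v', x⟩, ⟨hx1, hx2⟩, hvv⟩
    change v' = v at hvv
    subst hvv
    simp only at hx1 hx2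
    set C := connectedComponentIn {z | v (x 0) ≤ v z} (x 0) with hC
    have hCp : IsPreconnected C := isPreconnected_connectedComponentIn
    have hJ : (π₀ '' C).OrdConnected :=
      (hCp.image _ π₀.continuous.continuousOn).ordConnected
    refine no_four hl hJ (t := v (x 0)) ?_ (e := fun i => π₀ (x i)) ?_ ?_ ?_
    · rintro _ ⟨z, hz, rfl⟩
      have h1 : z ∈ {z | v (x 0) ≤ v z} := connectedComponentIn_subset {z | v (x 0) ≤ v z} (x 0) hz
      have h2 : v (x 0) ≤ v z := h1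
      rw [hvx z] at h2
      exact h2
    · intro i j hij
      by_contra hne
      have h1 := hx1 i j hne
      have h2 := hπ₀ (x i) (x j) hij
      exact absurd (h2.trans_le (min_le_right _ _)) (not_lt.2 h1)
    · intro i
      exact ⟨x i, (hx2 i).2, rfl⟩
    · intro i
      show w (π₀ (x i)) + l * π₀ (x i) = v (x 0)
      rw [← hvx, ← (hx2 i).1]

/-- Functions whose tree relation has at most three points in each class are dense. -/
theorem generic (hX : ArcLike X) (u₀ : C(X, ℝ)) {ε : ℝ} (hε : 0 < ε) :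
    ∃ u : C(X, ℝ), (∀ x, |u₀ x - u x| < ε) ∧
      ∀ x : Fin 4 → X, Function.Injective x → ¬ ∀ i, TRel u (x 0) (x i) := by
  have hd : Dense (⋂ a : ℕ, (BB a : Set C(X, ℝ))ᶜ) :=
    dense_iInter_of_isOpen (fun a => (isClosed_BB a).isOpen_compl) (fun a => dense_good hX a)
  obtain ⟨u, hu, hdist⟩ := hd.exists_dist_lt u₀ hε
  refine ⟨u, fun x => ?_, ?_⟩
  · rw [← Real.dist_eq]
    exact lt_of_le_of_lt (ContinuousMap.dist_apply_le_dist x) hdist
  intro x hx hT
  obtain ⟨m, hm⟩ : ∃ m : ℕ, ∀ i j : Fin 4, i ≠ j →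
      1 / ((m : ℝ) + 1) ≤ dist (x i) (x j) := by
    have h1 : ∀ i j : Fin 4, i ≠ j → ∃ m : ℕ, 1 / ((m : ℝ) + 1) < dist (x i) (x j) :=
      fun i j hij => exists_nat_one_div_lt (dist_pos.2 (fun h => hij (hx h)))
    choose! F hF using h1
    refine ⟨∑ i, ∑ j, F i j, fun i j hij => ?_⟩
    have h2 : F i j ≤ ∑ i, ∑ j, F i j :=
      (Finset.single_le_sum (f := fun j => F i j) (fun _ _ => Nat.zero_le _)
        (Finset.mem_univ j)).trans
      (Finset.single_le_sum (f := fun i => ∑ j, F i j) (fun _ _ => Nat.zero_le _)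
        (Finset.mem_univ i))
    have h3 : (F i j : ℝ) ≤ ((∑ i, ∑ j, F i j : ℕ) : ℝ) := by exact_mod_cast h2
    refine le_trans ?_ (hF i j hij).le
    apply one_div_le_one_div_of_le
    · positivity
    · linarith
  have := mem_iInter.1 hu m
  apply this
  exact ⟨(u, x), ⟨hm, hT⟩, rfl⟩

end gen

end Pool.Agent.H452.ALC
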